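import Pool.Agent.H72.EN.Targets
import Pool.Agent.H93.EB.Basic

/-!
# Section EN, sequences: harmonic sums
-/

set_option autoImplicit false

open Finset Pool.Agent.H6.N4D Pool.Agent.H93.EB Pool.Agent.H28.EN Pool.Agent.H72.EN

namespace Pool.Agent.H68.ENL

theorem pf_HAR : T_HAR := by
  intro m₀ me h0 _
  refine ⟨sum_nonneg fun _ _ => by positivity, ?_⟩
  refine le_trans ?_ (hs_le me)
  unfold hs
  refine sum_le_sum_of_subset_of_nonneg (Icc_subset_Icc h0 le_rfl) fun _ _ _ => by positivity

end Pool.Agent.H68.ENL
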