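import Pool.Agent.H72.EN.Targets

/-!
# Section EN, sequences: the lengths are small
-/

set_option autoImplicit false

open Finset Pool.Agent.H6.N4D Pool.Agent.H93.EB Pool.Agent.H28.EN Pool.Agent.H72.EN

namespace Pool.Agent.H68.ENL

lemma lim_core (ε y k : ℝ) (hε : 0 < ε) (hy : 1 ≤ y) (hyK : (159 / ε) ^ 50 ≤ y) (hk0 : 0 ≤ k)
    (hk : k ≤ 2 * y ^ (24 / 25 : ℝ)) : (k + 1) * (1 + Real.log (k + 1)) ≤ ε * y := by
  have hy0 : 0 < y := by linarith
  have h1 : 1 ≤ y ^ (24 / 25 : ℝ) := Real.one_le_rpow hy (by norm_num)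
  have h2 : 1 ≤ y ^ (1 / 50 : ℝ) := Real.one_le_rpow hy (by norm_num)
  have h3 : k + 1 ≤ 3 * y ^ (24 / 25 : ℝ) := by linarith
  have hl0 : 0 ≤ Real.log y := Real.log_nonneg hy
  have h4 : Real.log (k + 1) ≤ 2 + 50 * y ^ (1 / 50 : ℝ) := by
    have h5 : Real.log (k + 1) ≤ Real.log (3 * y ^ (24 / 25 : ℝ)) :=
      Real.log_le_log (by linarith) h3
    rw [Real.log_mul (by norm_num) (by positivity), Real.log_rpow hy0] at h5
    have h6 : Real.log 3 ≤ 2 := by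
      have := Real.log_le_sub_one_of_pos (show (0 : ℝ) < 3 by norm_num)
      linarith
    have h7 := Real.log_le_rpow_div hy0.le (show (0 : ℝ) < 1 / 50 by norm_num)
    have h8 : y ^ (1 / 50 : ℝ) / (1 / 50) = 50 * y ^ (1 / 50 : ℝ) := by ring
    rw [h8] at h7
    linarith
  have h9 : 1 + Real.log (k + 1) ≤ 53 * y ^ (1 / 50 : ℝ) := by linarith
  have h10 : 0 ≤ 1 + Real.log (k + 1) := by
    have := Real.log_nonneg (show (1 : ℝ) ≤ k + 1 by linarith)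
    linarith
  have h11 : y ^ (24 / 25 : ℝ) * y ^ (1 / 50 : ℝ) * y ^ (1 / 50 : ℝ) = y := by
    rw [← Real.rpow_add hy0, ← Real.rpow_add hy0]
    norm_num
  have h12 : 159 / ε ≤ y ^ (1 / 50 : ℝ) := by
    have h13 : ((159 / ε) ^ 50) ^ (1 / 50 : ℝ) ≤ y ^ (1 / 50 : ℝ) :=
      Real.rpow_le_rpow (by positivity) hyK (by norm_num)
    have h14 : ((159 / ε) ^ 50) ^ (1 / 50 : ℝ) = 159 / ε := by
      rw [← Real.rpow_natCast, ← Real.rpow_mul (by positivity)]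
      norm_num
    rwa [h14] at h13
  have h15 : 159 ≤ ε * y ^ (1 / 50 : ℝ) := by
    rw [div_le_iff₀ hε] at h12
    linarith
  calc (k + 1) * (1 + Real.log (k + 1)) ≤
        (3 * y ^ (24 / 25 : ℝ)) * (53 * y ^ (1 / 50 : ℝ)) :=
        mul_le_mul h3 h9 h10 (by positivity)
    _ = 159 * (y ^ (24 / 25 : ℝ) * y ^ (1 / 50 : ℝ)) := by ring
    _ ≤ (ε * y ^ (1 / 50 : ℝ)) * (y ^ (24 / 25 : ℝ) * y ^ (1 / 50 : ℝ)) :=
        mul_le_mul_of_nonneg_right h15 (by positivity)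
    _ = ε * (y ^ (24 / 25 : ℝ) * y ^ (1 / 50 : ℝ) * y ^ (1 / 50 : ℝ)) := by ring
    _ = ε * y := by rw [h11]

theorem pf_LIM : T_LIM := by
  intro ε hε
  refine ⟨max 3 ⌈Real.exp ((159 / ε) ^ 50)⌉₊, le_max_left _ _, fun X k hX hk => ?_⟩
  have hX3 : 3 ≤ X := (le_max_left _ _).trans hX
  have hXR : (3 : ℝ) ≤ X := by exact_mod_cast hX3
  have hXe : Real.exp ((159 / ε) ^ 50) ≤ X := by
    have h1 : ⌈Real.exp ((159 / ε) ^ 50)⌉₊ ≤ X := (le_max_right _ _).trans hX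
    exact (Nat.le_ceil _).trans (by exact_mod_cast h1)
  have hy : 1 ≤ Real.log X := by
    rw [Real.le_log_iff_exp_le (by linarith)]
    have := Real.exp_one_lt_d9
    linarith
  have hyK : (159 / ε) ^ 50 ≤ Real.log X := by
    rw [Real.le_log_iff_exp_le (by linarith)]
    exact hXe
  exact lim_core ε (Real.log X) k hε hy hyK (by positivity) hk

end Pool.Agent.H68.ENL
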